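import Pool.Agent.W813.NC.Stm

/-!
# Project NC, part FUN: braided functors commute with the symmetrisers
-/

set_option linter.unusedSectionVars false

open CategoryTheory Limits MonoidalCategory

namespace Pool.Agent.W972.NC

open Pool.Agent.W492.MT (tpow tr)
open Pool.Agent.W492.KC (swp gins gsym EvenFin OddFin)
open Pool.Agent.W813.NC

universe v u v' u'

section
variable {C : Type u} [Category.{v} C] [MonoidalCategory C] [SymmetricCategory C]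
  {D : Type u'} [Category.{v'} D] [MonoidalCategory D] [SymmetricCategory D]
  (Φ : C ⥤ D) [Φ.Braided]

theorem swp_mu (X Y : C) :
    swp (Φ.obj X) (Φ.obj Y) ≫ (Φ.obj X ◁ Functor.LaxMonoidal.μ Φ X Y) ≫
        Functor.LaxMonoidal.μ Φ X (X ⊗ Y) =
      (Φ.obj X ◁ Functor.LaxMonoidal.μ Φ X Y) ≫ Functor.LaxMonoidal.μ Φ X (X ⊗ Y) ≫
        Φ.map (swp X Y) := by
  have h1 := Functor.LaxMonoidal.associativity Φ X X Y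
  have h2 : (Φ.obj X ◁ Functor.LaxMonoidal.μ Φ X Y) ≫ Functor.LaxMonoidal.μ Φ X (X ⊗ Y) =
      (α_ (Φ.obj X) (Φ.obj X) (Φ.obj Y)).inv ≫ Functor.LaxMonoidal.μ Φ X X ▷ Φ.obj Y ≫
        Functor.LaxMonoidal.μ Φ (X ⊗ X) Y ≫ Φ.map (α_ X X Y).hom := by
    rw [h1, Iso.inv_hom_id_assoc]
  have h3 : Functor.LaxMonoidal.μ Φ X X ≫ Φ.map (β_ X X).hom =
      (β_ (Φ.obj X) (Φ.obj X)).hom ≫ Functor.LaxMonoidal.μ Φ X X :=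
    Functor.LaxBraided.braided X X
  have h4 : Φ.map (β_ X X).hom ▷ Φ.obj Y ≫ Functor.LaxMonoidal.μ Φ (X ⊗ X) Y =
      Functor.LaxMonoidal.μ Φ (X ⊗ X) Y ≫ Φ.map ((β_ X X).hom ▷ Y) :=
    Functor.LaxMonoidal.μ_natural_left Φ (β_ X X).hom Y
  have h5 : (β_ (Φ.obj X) (Φ.obj X)).hom ▷ Φ.obj Y ≫ Functor.LaxMonoidal.μ Φ X X ▷ Φ.obj Y =
      Functor.LaxMonoidal.μ Φ X X ▷ Φ.obj Y ≫ Φ.map (β_ X X).hom ▷ Φ.obj Y := by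
    rw [← comp_whiskerRight, ← comp_whiskerRight, h3]
  unfold swp
  simp only [Category.assoc, Functor.map_comp]
  have h6 : (Φ.obj X ◁ Functor.LaxMonoidal.μ Φ X Y) ≫ Functor.LaxMonoidal.μ Φ X (X ⊗ Y) ≫
      Φ.map (α_ X X Y).inv =
      (α_ (Φ.obj X) (Φ.obj X) (Φ.obj Y)).inv ≫ Functor.LaxMonoidal.μ Φ X X ▷ Φ.obj Y ≫
        Functor.LaxMonoidal.μ Φ (X ⊗ X) Y := by
    rw [← Category.assoc, h2]
    simp only [Category.assoc]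
    rw [← Φ.map_comp, Iso.hom_inv_id, Φ.map_id, Category.comp_id]
  rw [h2]
  rw [Iso.hom_inv_id_assoc]
  have h7 : (Φ.obj X ◁ Functor.LaxMonoidal.μ Φ X Y) ≫ Functor.LaxMonoidal.μ Φ X (X ⊗ Y) ≫
      Φ.map (α_ X X Y).inv ≫ Φ.map ((β_ X X).hom ▷ Y) ≫ Φ.map (α_ X X Y).hom =
      ((Φ.obj X ◁ Functor.LaxMonoidal.μ Φ X Y) ≫ Functor.LaxMonoidal.μ Φ X (X ⊗ Y) ≫
      Φ.map (α_ X X Y).inv) ≫ Φ.map ((β_ X X).hom ▷ Y) ≫ Φ.map (α_ X X Y).hom := by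
    simp only [Category.assoc]
  rw [h7, h6]
  simp only [Category.assoc]
  rw [← reassoc_of% h4, ← reassoc_of% h5]

end

section
variable {C : Type u} [Category.{v} C] [Preadditive C] [MonoidalCategory C] [SymmetricCategory C]
  {D : Type u'} [Category.{v'} D] [Preadditive D] [MonoidalCategory D] [SymmetricCategory D]
  [MonoidalPreadditive D]
  (Φ : C ⥤ D) [Φ.Braided] [Φ.Additive]

theorem swp_gen (X : C) {Y' : D} {Y : C} (k : Y' ⟶ Φ.obj Y) :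
    swp (Φ.obj X) Y' ≫ (Φ.obj X ◁ ((Φ.obj X ◁ k) ≫ Functor.LaxMonoidal.μ Φ X Y)) ≫
        Functor.LaxMonoidal.μ Φ X (X ⊗ Y) =
      (Φ.obj X ◁ ((Φ.obj X ◁ k) ≫ Functor.LaxMonoidal.μ Φ X Y)) ≫
        Functor.LaxMonoidal.μ Φ X (X ⊗ Y) ≫ Φ.map (swp X Y) := by
  have h := swp_mu Φ X Y
  have hn := Pool.Agent.W225.KC.swp_nat (Φ.obj X) k
  rw [MonoidalCategory.whiskerLeft_comp]
  simp only [Category.assoc]
  rw [reassoc_of% hn, h]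

theorem ins_gen (X : C) {Y' : D} {Y : C} (k : Y' ⟶ Φ.obj Y) (ε : ℤ)
    (g' : Φ.obj X ⊗ Y' ⟶ Φ.obj X ⊗ Y') (g : X ⊗ Y ⟶ X ⊗ Y)
    (hg : g' ≫ ((Φ.obj X ◁ k) ≫ Functor.LaxMonoidal.μ Φ X Y) =
      ((Φ.obj X ◁ k) ≫ Functor.LaxMonoidal.μ Φ X Y) ≫ Φ.map g) :
    (𝟙 _ + ε • (swp (Φ.obj X) Y' ≫ (Φ.obj X ◁ g'))) ≫
        ((Φ.obj X ◁ ((Φ.obj X ◁ k) ≫ Functor.LaxMonoidal.μ Φ X Y)) ≫
          Functor.LaxMonoidal.μ Φ X (X ⊗ Y)) =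
      ((Φ.obj X ◁ ((Φ.obj X ◁ k) ≫ Functor.LaxMonoidal.μ Φ X Y)) ≫
          Functor.LaxMonoidal.μ Φ X (X ⊗ Y)) ≫
        Φ.map (𝟙 _ + ε • (swp X Y ≫ (X ◁ g))) := by
  have hs := swp_gen Φ X k
  set K := (Φ.obj X ◁ k) ≫ Functor.LaxMonoidal.μ Φ X Y with hK
  have s2 : (Φ.obj X ◁ g') ≫ (Φ.obj X ◁ K) = (Φ.obj X ◁ K) ≫ (Φ.obj X ◁ Φ.map g) := by
    rw [← MonoidalCategory.whiskerLeft_comp, ← MonoidalCategory.whiskerLeft_comp, hg]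
  have s3 : (Φ.obj X ◁ Φ.map g) ≫ Functor.LaxMonoidal.μ Φ X (X ⊗ Y) =
      Functor.LaxMonoidal.μ Φ X (X ⊗ Y) ≫ Φ.map (X ◁ g) :=
    Functor.LaxMonoidal.μ_natural_right Φ X g
  have key : (swp (Φ.obj X) Y' ≫ (Φ.obj X ◁ g')) ≫
      ((Φ.obj X ◁ K) ≫ Functor.LaxMonoidal.μ Φ X (X ⊗ Y)) =
      ((Φ.obj X ◁ K) ≫ Functor.LaxMonoidal.μ Φ X (X ⊗ Y)) ≫ Φ.map (swp X Y ≫ (X ◁ g)) := by
    simp only [Category.assoc, Φ.map_comp]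
    rw [reassoc_of% s2, s3, ← reassoc_of% hs]
  rw [Preadditive.add_comp, Φ.map_add, Preadditive.comp_add, Category.id_comp, Φ.map_id,
    Category.comp_id, Preadditive.zsmul_comp, Functor.map_zsmul, Preadditive.comp_zsmul, key]

theorem sym_gen (X : C) {Y' : D} {Y : C} (k : Y' ⟶ Φ.obj Y) (s' : Y' ⟶ Y') (s : Y ⟶ Y)
    (g' : Φ.obj X ⊗ Y' ⟶ Φ.obj X ⊗ Y') (g : X ⊗ Y ⟶ X ⊗ Y)
    (hs : s' ≫ k = k ≫ Φ.map s)
    (hg : g' ≫ ((Φ.obj X ◁ k) ≫ Functor.LaxMonoidal.μ Φ X Y) =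
      ((Φ.obj X ◁ k) ≫ Functor.LaxMonoidal.μ Φ X Y) ≫ Φ.map g) :
    ((Φ.obj X ◁ s') ≫ g') ≫ ((Φ.obj X ◁ k) ≫ Functor.LaxMonoidal.μ Φ X Y) =
      ((Φ.obj X ◁ k) ≫ Functor.LaxMonoidal.μ Φ X Y) ≫ Φ.map ((X ◁ s) ≫ g) := by
  have s2 : (Φ.obj X ◁ s') ≫ (Φ.obj X ◁ k) = (Φ.obj X ◁ k) ≫ (Φ.obj X ◁ Φ.map s) := by
    rw [← MonoidalCategory.whiskerLeft_comp, ← MonoidalCategory.whiskerLeft_comp, hs]
  have s3 : (Φ.obj X ◁ Φ.map s) ≫ Functor.LaxMonoidal.μ Φ X Y =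
      Functor.LaxMonoidal.μ Φ X Y ≫ Φ.map (X ◁ s) :=
    Functor.LaxMonoidal.μ_natural_right Φ X s
  rw [Category.assoc, hg]
  simp only [Category.assoc, Φ.map_comp]
  rw [reassoc_of% s2, reassoc_of% s3]

theorem gins_kap (X : C) (ε : ℤ) : ∀ n : ℕ,
    gins ε (Φ.obj X) n ≫ ((Φ.obj X ◁ (kap Φ X n).hom) ≫
        Functor.LaxMonoidal.μ Φ X (tpow X n)) =
      ((Φ.obj X ◁ (kap Φ X n).hom) ≫ Functor.LaxMonoidal.μ Φ X (tpow X n)) ≫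
        Φ.map (gins ε X n)
  | 0 => by
    show 𝟙 _ ≫ ((Φ.obj X ◁ (kap Φ X 0).hom) ≫ Functor.LaxMonoidal.μ Φ X (tpow X 0)) =
      ((Φ.obj X ◁ (kap Φ X 0).hom) ≫ Functor.LaxMonoidal.μ Φ X (tpow X 0)) ≫ Φ.map (𝟙 _)
    rw [Φ.map_id, Category.id_comp, Category.comp_id]
  | n + 1 => ins_gen Φ X (kap Φ X n).hom ε (gins ε (Φ.obj X) n) (gins ε X n) (gins_kap X ε n)

theorem fun_sym : S_FUN Φ := by
  intro X ε n
  induction n with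
  | zero =>
    show 𝟙 _ ≫ (kap Φ X 0).hom = (kap Φ X 0).hom ≫ Φ.map (𝟙 _)
    rw [Φ.map_id, Category.id_comp]
    exact (Category.comp_id _).symm
  | succ n ih =>
    exact sym_gen Φ X (kap Φ X n).hom (gsym ε (Φ.obj X) n) (gsym ε X n) (gins ε (Φ.obj X) n)
      (gins ε X n) ih (gins_kap Φ X ε n)

end

end Pool.Agent.W972.NC
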